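import Pool.Agent.KS6_51.INVS.Sq
import Pool.Agent.KS6_52.SQ.Crit

set_option autoImplicit false

/-! # Criteria at even and odd multiples: the property at `2 x - 2` or `2 x - 3` -/

namespace Pool.Agent.KS6_52.DB

open Finset Filter
open Pool.Agent.H469R2.NK (e norm_e e_add e_zero e_nat)
open Pool.Agent.Q20.RG (e_sumJ)
open Pool.Agent.Q46.SL (CS)

/-- the property at `2 x - 2` or at `2 x - 3` -/
def Dbl {Θ : Type} (Q : Θ → ℝ → ℝ → ℤ → Prop) (θ : Θ) (κ M : ℝ) (x : ℤ) : Prop :=
  ∃ b : Fin 2, Q θ κ M (2 * x - 2 - ((b : ℕ) : ℤ))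

lemma e_z (n : ℤ) : e (n : ℝ) = 1 := by
  have h1 : e (n : ℝ) = Complex.exp (((2 * Real.pi * (n : ℝ) : ℝ) : ℂ) * Complex.I) := rfl
  rw [h1]
  have : (((2 * Real.pi * (n : ℝ) : ℝ) : ℂ) * Complex.I) = n * (2 * Real.pi * Complex.I) := by
    push_cast
    ring
  rw [this, Complex.exp_int_mul_two_pi_mul_I]

lemma e_half (n : ℤ) : e ((n : ℝ) + 1 / 2) = -1 := by
  rw [e_add, e_z, one_mul]
  have h1 : e (1 / 2 : ℝ) = Complex.exp (((2 * Real.pi * (1 / 2 : ℝ) : ℝ) : ℂ) * Complex.I) := rfl
  rw [h1]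
  have : (((2 * Real.pi * (1 / 2 : ℝ) : ℝ) : ℂ) * Complex.I) = Real.pi * Complex.I := by
    push_cast
    ring
  rw [this, Complex.exp_pi_mul_I]

open Classical in
/-- **the criterion at even and odd numbers** -/
theorem csDbl {Θ : Type} (Q : Θ → ℝ → ℝ → ℤ → Prop) (lam : ℝ → ℝ) (r : ℕ) (hQ : CS Q lam r) :
    CS (Dbl Q) lam r := by
  intro η h0 h1
  obtain ⟨κ, hκ, c, hc, hM⟩ := hQ η h0 h1
  refine ⟨κ, hκ, c, hc, ?_⟩
  filter_upwards [hM, (tendsto_rpow_atTop h0).eventually_ge_atTop 3, eventually_ge_atTop (0 : ℝ)] with M hM h3 hM00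
  refine ⟨hM.1, fun θ ι s v hv hE => ?_⟩
  have key := hM.2 θ (ι × (Fin r → Fin 2)) (s ×ˢ univ)
    (fun a j => 2 * v a.1 j - 2 - (((a.2 j : Fin 2) : ℕ) : ℤ)) (by
      intro a ha j
      rw [mem_product] at ha
      have g1 := hv a.1 ha.1 j
      have g2 : (((a.2 j : Fin 2) : ℕ) : ℝ) ≤ 1 := by
        have := (a.2 j).isLt
        exact_mod_cast (by omega : ((a.2 j : Fin 2) : ℕ) ≤ 1)
      push_cast
      linarith) (by
      intro q hq1 hq h hh hne
      have hq0 : (0 : ℝ) < q := by exact_mod_cast hq1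
      have hsum : ∑ a ∈ s ×ˢ (univ : Finset (Fin r → Fin 2)),
          e (∑ j, (h j : ℝ) * (((2 * v a.1 j - 2 - (((a.2 j : Fin 2) : ℕ) : ℤ) : ℤ) : ℝ) / q)) =
          (∑ i ∈ s, e (∑ j, (h j : ℝ) * (2 * (v i j : ℝ) / q))) *
            ∏ j, ∑ b : Fin 2, e ((h j : ℝ) * ((-2 - (((b : Fin 2) : ℕ) : ℝ)) / q)) := by
        rw [prod_univ_sum, Fintype.piFinset_univ, sum_mul_sum, sum_product]
        refine sum_congr rfl fun i _ => sum_congr rfl fun ε _ => ?_
        rw [← e_sumJ, ← e_add, ← sum_add_distrib]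
        congr 1
        refine sum_congr rfl fun j _ => ?_
        push_cast
        ring
      have hcard : ((s ×ˢ (univ : Finset (Fin r → Fin 2))).card : ℝ) = s.card * 2 ^ r := by
        rw [card_product, card_univ, Fintype.card_fun, Fintype.card_fin, Fintype.card_fin]
        push_cast
        ring
      rw [hsum, norm_mul, hcard]
      have hM0 : (0 : ℝ) < M ^ η := by linarith
      have hMn : 0 ≤ M ^ (-η) := Real.rpow_nonneg hM00 _
      by_cases hA : ∃ j, ¬ q ∣ 2 * h j
      · obtain ⟨j0, hj0⟩ := hA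
        obtain ⟨m', d, hmd, hlt, hm0⟩ : ∃ m' d : Fin r → ℕ, (∀ j, 2 * h j = m' j + q * d j) ∧
            (∀ j, m' j < q) ∧ m' ≠ 0 := by
          refine ⟨fun j => (2 * h j) % q, fun j => (2 * h j) / q, fun j => (Nat.mod_add_div _ _).symm,
            fun j => Nat.mod_lt _ hq1, fun hz => hj0 ?_⟩
          exact Nat.dvd_of_mod_eq_zero (congrFun hz j0)
        have g1 := hE q hq1 hq m' hlt hm0
        have g2 : ∀ i, e (∑ j, (m' j : ℝ) * ((v i j : ℝ) / q)) =
            e (∑ j, (h j : ℝ) * (2 * (v i j : ℝ) / q)) := by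
          intro i
          have g3 : ∑ j, (h j : ℝ) * (2 * (v i j : ℝ) / q) =
              ∑ j, (m' j : ℝ) * ((v i j : ℝ) / q) + ((∑ j, (d j : ℤ) * v i j : ℤ) : ℝ) := by
            push_cast
            rw [← sum_add_distrib]
            refine sum_congr rfl fun j _ => ?_
            have g4 : (2 : ℝ) * h j = m' j + q * d j := by exact_mod_cast hmd j
            have g5 : (h j : ℝ) * (2 * (v i j : ℝ) / q) = (2 * h j) * (v i j : ℝ) / q := by ring
            rw [g5, g4]
            field_simp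
          rw [g3, e_add, e_z, mul_one]
        rw [sum_congr rfl (fun i _ => g2 i)] at g1
        have g6 : ‖∏ j, ∑ b : Fin 2, e ((h j : ℝ) * ((-2 - (((b : Fin 2) : ℕ) : ℝ)) / q))‖ ≤ 2 ^ r := by
          rw [norm_prod]
          calc _ ≤ ∏ _j : Fin r, (2 : ℝ) := by
                refine prod_le_prod (fun _ _ => norm_nonneg _) fun j _ => ?_
                rw [Fin.sum_univ_two]
                refine (norm_add_le _ _).trans ?_
                rw [norm_e, norm_e]
                norm_num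
            _ = 2 ^ r := by rw [prod_const, card_univ, Fintype.card_fin]
        calc _ ≤ (s.card * M ^ (-η)) * 2 ^ r :=
              mul_le_mul g1 g6 (norm_nonneg _) ((norm_nonneg _).trans g1)
          _ = _ := by ring
      · push Not at hA
        obtain ⟨j0, hj0⟩ : ∃ j0, h j0 ≠ 0 := by
          by_contra hcon
          push Not at hcon
          exact hne (funext hcon)
        have g1 : 2 * h j0 = q := by
          obtain ⟨d, hd⟩ := hA j0
          have g2 := hh j0
          have g3 : 0 < h j0 := Nat.pos_of_ne_zero hj0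
          have g4 : 0 < d := by
            rcases Nat.eq_zero_or_pos d with h5 | h5
            · subst h5; omega
            · exact h5
          have g5 : d < 2 := by
            by_contra hcon
            push Not at hcon
            have : q * 2 ≤ q * d := Nat.mul_le_mul_left q hcon
            omega
          have g6 : d = 1 := by omega
          subst g6
          omega
        have g7 : (h j0 : ℝ) / q = 1 / 2 := by
          rw [div_eq_iff hq0.ne']
          have : (2 : ℝ) * h j0 = q := by exact_mod_cast g1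
          linarith
        have g8 : ∑ b : Fin 2, e ((h j0 : ℝ) * ((-2 - (((b : Fin 2) : ℕ) : ℝ)) / q)) = 0 := by
          rw [Fin.sum_univ_two]
          have k0 : (h j0 : ℝ) * ((-2 - (((0 : Fin 2) : ℕ) : ℝ)) / q) = ((-1 : ℤ) : ℝ) := by
            have : (h j0 : ℝ) * ((-2 - (((0 : Fin 2) : ℕ) : ℝ)) / q) = (h j0 : ℝ) / q * (-2) := by
              simp; ring
            rw [this, g7]; norm_num
          have k1 : (h j0 : ℝ) * ((-2 - (((1 : Fin 2) : ℕ) : ℝ)) / q) = ((-2 : ℤ) : ℝ) + 1 / 2 := by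
            have : (h j0 : ℝ) * ((-2 - (((1 : Fin 2) : ℕ) : ℝ)) / q) = (h j0 : ℝ) / q * (-3) := by
              simp; ring
            rw [this, g7]; norm_num
          rw [k0, k1, e_z, e_half]
          norm_num
        rw [prod_eq_zero (mem_univ j0) g8, norm_zero, mul_zero]
        positivity)
  have hle : ((s ×ˢ (univ : Finset (Fin r → Fin 2))).filter
      (fun a => ∀ j, Q θ κ M (2 * v a.1 j - 2 - (((a.2 j : Fin 2) : ℕ) : ℤ)))).card ≤
      (s.filter (fun i => ∀ j, Dbl Q θ κ M (v i j))).card * 2 ^ r := by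
    have hsub : ((s ×ˢ (univ : Finset (Fin r → Fin 2))).filter
        (fun a => ∀ j, Q θ κ M (2 * v a.1 j - 2 - (((a.2 j : Fin 2) : ℕ) : ℤ)))) ⊆
        (s.filter (fun i => ∀ j, Dbl Q θ κ M (v i j))) ×ˢ (univ : Finset (Fin r → Fin 2)) := by
      intro a ha
      rw [mem_filter, mem_product] at ha
      rw [mem_product, mem_filter]
      exact ⟨⟨ha.1.1, fun j => ⟨a.2 j, ha.2 j⟩⟩, mem_univ _⟩
    refine (card_le_card hsub).trans ?_
    rw [card_product, card_univ, Fintype.card_fun, Fintype.card_fin, Fintype.card_fin]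
  have hcard : ((s ×ˢ (univ : Finset (Fin r → Fin 2))).card : ℝ) = s.card * 2 ^ r := by
    rw [card_product, card_univ, Fintype.card_fun, Fintype.card_fin, Fintype.card_fin]
    push_cast
    ring
  rw [hcard] at key
  have hle' : (((s ×ˢ (univ : Finset (Fin r → Fin 2))).filter
      (fun a => ∀ j, Q θ κ M (2 * v a.1 j - 2 - (((a.2 j : Fin 2) : ℕ) : ℤ)))).card : ℝ) ≤
      (s.filter (fun i => ∀ j, Dbl Q θ κ M (v i j))).card * 2 ^ r := by exact_mod_cast hle
  have h2r : (0 : ℝ) < 2 ^ r := by positivity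
  have := key.trans hle'
  have e1 : c * s.card * lam M * 2 ^ r ≤ (s.filter (fun i => ∀ j, Dbl Q θ κ M (v i j))).card * 2 ^ r := by
    refine le_trans (le_of_eq ?_) this
    ring
  exact le_of_mul_le_mul_right e1 h2r

end Pool.Agent.KS6_52.DB
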